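import Mathlib

/-!
# Graphs of diameter two: the Fano plane graph on `7m` vertices and the blow-up of the 5-cycle
-/

set_option autoImplicit false

open scoped Classical

namespace Pool.Agent.Helper114.D2

theorem ediam_le_two_iff {V : Type} (G : SimpleGraph V) :
    G.ediam ≤ 2 ↔ ∀ u v, u ≠ v → ¬ G.Adj u v → ∃ w, G.Adj u w ∧ G.Adj v w := by
  rw [SimpleGraph.ediam_le_iff]
  constructor
  · intro h u v huv hadj
    by_contra hno
    have h1 : 2 < G.edist u v := by
      rw [SimpleGraph.two_lt_edist_iff]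
      refine ⟨huv, hadj, ?_⟩
      rw [Set.eq_empty_iff_forall_notMem]
      intro w hw
      rw [SimpleGraph.mem_commonNeighbors] at hw
      exact hno ⟨w, hw.1, hw.2⟩
    exact absurd (h u v) (not_le.mpr h1)
  · intro h u v
    by_contra hlt
    rw [not_le, SimpleGraph.two_lt_edist_iff] at hlt
    obtain ⟨huv, hadj, hemp⟩ := hlt
    obtain ⟨w, hw⟩ := h u v huv hadj
    have : w ∈ G.commonNeighbors u v := (SimpleGraph.mem_commonNeighbors (G := G)).mpr hw
    rw [hemp] at this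
    exact this

/-- point `p` lies on line `t` of the Fano plane -/
def lm (t p : ℕ) : Bool :=
  match t with
  | 0 => decide (p = 0 ∨ p = 1 ∨ p = 2)
  | 1 => decide (p = 0 ∨ p = 3 ∨ p = 4)
  | 2 => decide (p = 0 ∨ p = 5 ∨ p = 6)
  | 3 => decide (p = 1 ∨ p = 3 ∨ p = 5)
  | 4 => decide (p = 1 ∨ p = 4 ∨ p = 6)
  | 5 => decide (p = 2 ∨ p = 3 ∨ p = 6)
  | 6 => decide (p = 2 ∨ p = 4 ∨ p = 5)
  | _ => false

/-- the graph on the seven points -/
def ah (p q : ℕ) : Bool :=
  decide ((p, q) ∈ [(0, 1), (0, 2), (1, 3), (1, 4), (2, 5), (2, 6), (3, 4), (3, 6), (4, 5),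
    (1, 0), (2, 0), (3, 1), (4, 1), (5, 2), (6, 2), (4, 3), (6, 3), (5, 4)])

theorem ah_symm : ∀ p < 7, ∀ q < 7, ah p q = true → ah q p = true := by decide

theorem ah_irrefl : ∀ p < 7, ah p p = false := by decide

theorem ah_deg : ∀ p < 7, ((Finset.range 7).filter (fun q => ah p q = true)).card ≤ 3 := by decide

theorem lm_card : ∀ t < 7, ((Finset.range 7).filter (fun q => lm t q = true)).card ≤ 3 := by decide

theorem lm_card' : ∀ p < 7, ((Finset.range 7).filter (fun t => lm t p = true)).card ≤ 3 := by decide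

theorem lm_meet : ∀ t < 7, ∀ s < 7, ∃ p < 7, lm t p = true ∧ lm s p = true := by decide

theorem lm_join : ∀ p < 7, ∀ q < 7, ∃ t < 7, lm t p = true ∧ lm t q = true := by decide

theorem ah_lm : ∀ p < 7, ∀ t < 7, lm t p = true ∨ ∃ q < 7, ah p q = true ∧ lm t q = true := by
  decide

/-- the graph on `7m` vertices -/
def fg (m : ℕ) : SimpleGraph (Fin (7 * m)) where
  Adj i j := (i.1 < 7 ∧ j.1 < 7 ∧ ah i.1 j.1 = true) ∨ (i.1 < 7 ∧ 7 ≤ j.1 ∧ lm (j.1 % 7) i.1 = true)
    ∨ (j.1 < 7 ∧ 7 ≤ i.1 ∧ lm (i.1 % 7) j.1 = true)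
  symm := ⟨by
    rintro i j (⟨h1, h2, h3⟩ | h | h)
    · exact Or.inl ⟨h2, h1, ah_symm _ h1 _ h2 h3⟩
    · exact Or.inr (Or.inr h)
    · exact Or.inr (Or.inl h)⟩
  loopless := ⟨by
    rintro i (⟨h1, h2, h3⟩ | ⟨h1, h2, h3⟩ | ⟨h1, h2, h3⟩)
    · rw [ah_irrefl _ h1] at h3; exact absurd h3 (by decide)
    · omega
    · omega⟩

theorem fg_diam (m : ℕ) (hm : 2 ≤ m) (u v : Fin (7 * m)) (_huv : u ≠ v) (hadj : ¬ (fg m).Adj u v) :
    ∃ w, (fg m).Adj u w ∧ (fg m).Adj v w := by
  by_cases hu : u.1 < 7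
  · by_cases hv : v.1 < 7
    · obtain ⟨t, ht, h1, h2⟩ := lm_join _ hu _ hv
      refine ⟨⟨7 + t, by omega⟩, Or.inr (Or.inl ⟨hu, by simp, ?_⟩), Or.inr (Or.inl ⟨hv, by simp, ?_⟩)⟩
      · have : (7 + t) % 7 = t := by omega
        simpa only [this] using h1
      · have : (7 + t) % 7 = t := by omega
        simpa only [this] using h2
    · rw [not_lt] at hv
      rcases ah_lm _ hu (v.1 % 7) (Nat.mod_lt _ (by norm_num)) with h | ⟨q, hq, h1, h2⟩
      · exact absurd (Or.inr (Or.inl ⟨hu, hv, h⟩)) hadj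
      · exact ⟨⟨q, by omega⟩, Or.inl ⟨hu, hq, h1⟩, Or.inr (Or.inr ⟨hq, hv, h2⟩)⟩
  · rw [not_lt] at hu
    by_cases hv : v.1 < 7
    · rcases ah_lm _ hv (u.1 % 7) (Nat.mod_lt _ (by norm_num)) with h | ⟨q, hq, h1, h2⟩
      · exact absurd (Or.inr (Or.inr ⟨hv, hu, h⟩)) hadj
      · exact ⟨⟨q, by omega⟩, Or.inr (Or.inr ⟨hq, hu, h2⟩), Or.inl ⟨hv, hq, h1⟩⟩
    · rw [not_lt] at hv
      obtain ⟨p, hp, h1, h2⟩ := lm_meet (u.1 % 7) (Nat.mod_lt _ (by norm_num)) (v.1 % 7)
        (Nat.mod_lt _ (by norm_num))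
      exact ⟨⟨p, by omega⟩, Or.inr (Or.inr ⟨hp, hu, h1⟩), Or.inr (Or.inr ⟨hp, hv, h2⟩)⟩

theorem fg_deg_hub (m : ℕ) (hm : 2 ≤ m) (u : Fin (7 * m)) (hu : u.1 < 7) :
    ((fg m).neighborFinset u).card ≤ 3 * m := by
  have h1 : ((fg m).neighborFinset u).map Fin.valEmbedding ⊆
      ((Finset.range 7).filter (fun q => ah u.1 q = true)) ∪
      (((Finset.range (m - 1)) ×ˢ ((Finset.range 7).filter (fun t => lm t u.1 = true))).image
        (fun x => 7 * (x.1 + 1) + x.2)) := by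
    intro x hx
    rw [Finset.mem_map] at hx
    obtain ⟨j, hj, rfl⟩ := hx
    rw [SimpleGraph.mem_neighborFinset] at hj
    rcases hj with ⟨_, h2, h3⟩ | ⟨_, h2, h3⟩ | ⟨_, h2, _⟩
    · exact Finset.mem_union_left _ (Finset.mem_filter.mpr ⟨Finset.mem_range.mpr h2, h3⟩)
    · refine Finset.mem_union_right _ (Finset.mem_image.mpr ⟨(j.1 / 7 - 1, j.1 % 7), ?_, ?_⟩)
      · have hj2 := j.2
        refine Finset.mem_product.mpr ⟨Finset.mem_range.mpr ?_, Finset.mem_filter.mpr
          ⟨Finset.mem_range.mpr (Nat.mod_lt _ (by norm_num)), h3⟩⟩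
        simp only
        omega
      · simp only [Fin.valEmbedding_apply]
        omega
    · omega
  have h2 := Finset.card_le_card h1
  rw [Finset.card_map] at h2
  have h3 := Finset.card_union_le ((Finset.range 7).filter (fun q => ah u.1 q = true))
    (((Finset.range (m - 1)) ×ˢ ((Finset.range 7).filter (fun t => lm t u.1 = true))).image
        (fun x => 7 * (x.1 + 1) + x.2))
  have h4 := Finset.card_image_le (s := (Finset.range (m - 1)) ×ˢ
    ((Finset.range 7).filter (fun t => lm t u.1 = true))) (f := fun x => 7 * (x.1 + 1) + x.2)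
  rw [Finset.card_product, Finset.card_range] at h4
  have h5 := ah_deg _ hu
  have h6 := Nat.mul_le_mul_left (m - 1) (lm_card' _ hu)
  omega

theorem fg_deg_out (m : ℕ) (u : Fin (7 * m)) (hu : 7 ≤ u.1) :
    ((fg m).neighborFinset u).card ≤ 3 := by
  have h1 : ((fg m).neighborFinset u).map Fin.valEmbedding ⊆
      ((Finset.range 7).filter (fun q => lm (u.1 % 7) q = true)) := by
    intro x hx
    rw [Finset.mem_map] at hx
    obtain ⟨j, hj, rfl⟩ := hx
    rw [SimpleGraph.mem_neighborFinset] at hj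
    rcases hj with ⟨h1, _, _⟩ | ⟨h1, _, _⟩ | ⟨h1, _, h3⟩
    · omega
    · omega
    · exact Finset.mem_filter.mpr ⟨Finset.mem_range.mpr h1, h3⟩
  have h2 := Finset.card_le_card h1
  rw [Finset.card_map] at h2
  exact h2.trans (lm_card _ (Nat.mod_lt _ (by norm_num)))

theorem fg_deg (m : ℕ) (hm : 2 ≤ m) (u : Fin (7 * m)) :
    ((fg m).neighborFinset u).card ≤ 3 * m := by
  by_cases hu : u.1 < 7
  · exact fg_deg_hub m hm u hu
  · have := fg_deg_out m u (not_lt.mp hu)
    omega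

theorem fg_edges (m : ℕ) (hm : 2 ≤ m) : (fg m).edgeFinset.card ≤ 21 * m := by
  have h1 := (fg m).sum_degrees_eq_twice_card_edges
  have h2 : ∀ u : Fin (7 * m), (fg m).degree u ≤ 3 + if u.1 < 7 then 3 * m else 0 := by
    intro u
    rw [← SimpleGraph.card_neighborFinset_eq_degree]
    split_ifs with hu
    · have := fg_deg_hub m hm u hu
      omega
    · exact fg_deg_out m u (not_lt.mp hu)
  have h3 : ∑ u : Fin (7 * m), (fg m).degree u ≤
      ∑ u : Fin (7 * m), (3 + if u.1 < 7 then 3 * m else 0) := Finset.sum_le_sum (fun u _ => h2 u)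
  rw [Finset.sum_add_distrib, Finset.sum_const, Finset.card_univ, Fintype.card_fin, smul_eq_mul,
    ← Finset.sum_filter, Finset.sum_const, smul_eq_mul] at h3
  have h4 : (Finset.univ.filter (fun u : Fin (7 * m) => u.1 < 7)).card ≤ 7 := by
    have h5 : (Finset.univ.filter (fun u : Fin (7 * m) => u.1 < 7)).map Fin.valEmbedding ⊆
        Finset.range 7 := by
      intro x hx
      rw [Finset.mem_map] at hx
      obtain ⟨j, hj, rfl⟩ := hx
      exact Finset.mem_range.mpr (Finset.mem_filter.mp hj).2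
    have h6 := Finset.card_le_card h5
    rwa [Finset.card_map, Finset.card_range] at h6
  have h7 := Nat.mul_le_mul_right (3 * m) h4
  omega

/-! ### The blow-up of the 5-cycle -/

/-- adjacency in the 5-cycle -/
def c5 (p q : ℕ) : Bool := decide ((p + 1) % 5 = q ∨ (q + 1) % 5 = p)

theorem c5_symm : ∀ p < 5, ∀ q < 5, c5 p q = true → c5 q p = true := by decide

theorem c5_irrefl : ∀ p < 5, c5 p p = false := by decide

theorem c5_diam : ∀ p < 5, ∀ q < 5, c5 p q = true ∨ ∃ r < 5, c5 p r = true ∧ c5 q r = true := by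
  decide

theorem c5_deg : ∀ p < 5, ((Finset.range 5).filter (fun q => c5 p q = true)).card ≤ 2 := by decide

/-- the blow-up of the 5-cycle on `n` vertices -/
def bg (n : ℕ) : SimpleGraph (Fin n) where
  Adj i j := c5 (i.1 % 5) (j.1 % 5) = true
  symm := ⟨by
    intro i j h
    exact c5_symm _ (Nat.mod_lt _ (by norm_num)) _ (Nat.mod_lt _ (by norm_num)) h⟩
  loopless := ⟨by
    intro i h
    rw [c5_irrefl _ (Nat.mod_lt _ (by norm_num))] at h
    exact absurd h (by decide)⟩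

theorem bg_diam (n : ℕ) (hn : 5 ≤ n) (u v : Fin n) (_huv : u ≠ v) (hadj : ¬ (bg n).Adj u v) :
    ∃ w, (bg n).Adj u w ∧ (bg n).Adj v w := by
  rcases c5_diam (u.1 % 5) (Nat.mod_lt _ (by norm_num)) (v.1 % 5) (Nat.mod_lt _ (by norm_num)) with
    h | ⟨r, hr, h1, h2⟩
  · exact absurd h hadj
  · refine ⟨⟨r, by omega⟩, ?_, ?_⟩
    · change c5 (u.1 % 5) (r % 5) = true
      rwa [Nat.mod_eq_of_lt hr]
    · change c5 (v.1 % 5) (r % 5) = true
      rwa [Nat.mod_eq_of_lt hr]

theorem bg_deg (n : ℕ) (u : Fin n) : ((bg n).neighborFinset u).card ≤ 2 * (n / 5 + 1) := by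
  have h1 : ((bg n).neighborFinset u).map Fin.valEmbedding ⊆
      (((Finset.range (n / 5 + 1)) ×ˢ
        ((Finset.range 5).filter (fun t => c5 (u.1 % 5) t = true))).image
        (fun x => 5 * x.1 + x.2)) := by
    intro x hx
    rw [Finset.mem_map] at hx
    obtain ⟨j, hj, rfl⟩ := hx
    rw [SimpleGraph.mem_neighborFinset] at hj
    refine Finset.mem_image.mpr ⟨(j.1 / 5, j.1 % 5), ?_, ?_⟩
    · have hj2 := j.2
      refine Finset.mem_product.mpr ⟨Finset.mem_range.mpr ?_, Finset.mem_filter.mpr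
        ⟨Finset.mem_range.mpr (Nat.mod_lt _ (by norm_num)), hj⟩⟩
      simp only
      omega
    · simp only [Fin.valEmbedding_apply]
      omega
  have h2 := Finset.card_le_card h1
  rw [Finset.card_map] at h2
  have h4 := Finset.card_image_le (s := (Finset.range (n / 5 + 1)) ×ˢ
    ((Finset.range 5).filter (fun t => c5 (u.1 % 5) t = true))) (f := fun x => 5 * x.1 + x.2)
  rw [Finset.card_product, Finset.card_range] at h4
  have h6 := Nat.mul_le_mul_left (n / 5 + 1) (c5_deg _ (Nat.mod_lt u.1 (by norm_num : 5 > 0)))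
  omega

end Pool.Agent.Helper114.D2
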