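import Mathlib

/-!
# Linear intersecting families of triples with seven members, and the graph on their points
-/

set_option autoImplicit false

open scoped Classical

namespace Pool.Agent.Helper114.D2

variable {V : Type}

/-- double counting of incidences -/
theorem dcount {α β : Type} (s : Finset α) (t : Finset β) (r : α → β → Prop)
    [∀ a b, Decidable (r a b)] :
    ∑ a ∈ s, (t.filter (fun b => r a b)).card = ∑ b ∈ t, (s.filter (fun a => r a b)).card := by
  have := Finset.sum_card_bipartiteAbove_eq_sum_card_bipartiteBelow (s := s) (t := t) r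
  simpa only [Finset.bipartiteAbove, Finset.bipartiteBelow] using this

/-- at least seven triples, any two different ones meeting in exactly one point, no common point -/
structure Plane (F : Finset (Finset V)) : Prop where
  h3 : ∀ S ∈ F, S.card = 3
  h1 : ∀ S ∈ F, ∀ T ∈ F, S ≠ T → (S ∩ T).card = 1
  h7 : 7 ≤ F.card
  hno : ∀ p, ∃ S ∈ F, p ∉ S

namespace Plane

variable {F : Finset (Finset V)}

theorem eq_of_two (h : Plane F) {S T : Finset V} (hS : S ∈ F) (hT : T ∈ F) {p q : V} (hpq : p ≠ q)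
    (h1 : p ∈ S) (h2 : p ∈ T) (h3 : q ∈ S) (h4 : q ∈ T) : S = T := by
  by_contra hne
  have h5 := h.h1 S hS T hT hne
  have h6 : 1 < (S ∩ T).card := Finset.one_lt_card.mpr
    ⟨p, Finset.mem_inter.mpr ⟨h1, h2⟩, q, Finset.mem_inter.mpr ⟨h3, h4⟩, hpq⟩
  omega

theorem deg_le (h : Plane F) (p : V) : (F.filter (fun T => p ∈ T)).card ≤ 3 := by
  obtain ⟨S, hS, hpS⟩ := h.hno p
  have hsub : F.filter (fun T => p ∈ T) ⊆
      S.biUnion (fun x => F.filter (fun T => p ∈ T ∧ x ∈ T)) := by
    intro T hT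
    rw [Finset.mem_filter] at hT
    have hne : T ≠ S := by rintro rfl; exact hpS hT.2
    have h1 := h.h1 T hT.1 S hS hne
    obtain ⟨x, hx⟩ := Finset.card_pos.mp (by omega : 0 < (T ∩ S).card)
    rw [Finset.mem_inter] at hx
    rw [Finset.mem_biUnion]
    exact ⟨x, hx.2, Finset.mem_filter.mpr ⟨hT.1, hT.2, hx.1⟩⟩
  have h2 := Finset.card_le_card hsub
  have h3 := Finset.card_biUnion_le_card_mul S
    (fun x => F.filter (fun T => p ∈ T ∧ x ∈ T)) 1 (by
      intro x hx
      rw [Finset.card_le_one]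
      intro T hT T' hT'
      rw [Finset.mem_filter] at hT hT'
      have hpx : p ≠ x := by rintro rfl; exact hpS hx
      exact h.eq_of_two hT.1 hT'.1 hpx hT.2.1 hT'.2.1 hT.2.2 hT'.2.2)
  rw [h.h3 S hS] at h3
  omega

theorem sum_deg (h : Plane F) {S : Finset V} (hS : S ∈ F) :
    ∑ p ∈ S, (F.filter (fun T => p ∈ T)).card = F.card + 2 := by
  rw [dcount S F (fun p T => p ∈ T)]
  have h1 : ∀ T ∈ F, (S.filter (fun p => p ∈ T)).card = if T = S then 3 else 1 := by
    intro T hT
    have h2 : S.filter (fun p => p ∈ T) = S ∩ T := by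
      ext x; simp only [Finset.mem_filter, Finset.mem_inter]
    rw [h2]
    split_ifs with h3
    · subst h3; rw [Finset.inter_self]; exact h.h3 _ hS
    · exact h.h1 S hS T hT (Ne.symm h3)
  rw [Finset.sum_congr rfl h1, ← Finset.sum_erase_add F _ hS]
  have h4 : ∑ x ∈ F.erase S, (if x = S then 3 else 1) = (F.erase S).card := by
    rw [Finset.card_eq_sum_ones]
    refine Finset.sum_congr rfl (fun x hx => ?_)
    rw [if_neg (Finset.ne_of_mem_erase hx)]
  rw [h4, if_pos rfl, Finset.card_erase_of_mem hS]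
  have : 0 < F.card := Finset.card_pos.mpr ⟨S, hS⟩
  omega

theorem card_eq (h : Plane F) : F.card = 7 := by
  have h7 := h.h7
  obtain ⟨S, hS⟩ := Finset.card_pos.mp (by omega : 0 < F.card)
  have h1 := h.sum_deg hS
  have h2 : ∑ p ∈ S, (F.filter (fun T => p ∈ T)).card ≤ ∑ p ∈ S, 3 :=
    Finset.sum_le_sum (fun p _ => h.deg_le p)
  rw [Finset.sum_const, h.h3 S hS, smul_eq_mul] at h2
  omega

theorem deg_eq (h : Plane F) {S : Finset V} (hS : S ∈ F) {p : V} (hp : p ∈ S) :
    (F.filter (fun T => p ∈ T)).card = 3 := by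
  have h1 := h.sum_deg hS
  rw [h.card_eq] at h1
  have h2 : ∑ p ∈ S, (F.filter (fun T => p ∈ T)).card = ∑ p ∈ S, 3 := by
    rw [h1, Finset.sum_const, h.h3 S hS, smul_eq_mul]
  exact (Finset.sum_eq_sum_iff_of_le (fun p _ => h.deg_le p)).mp h2 p hp

/-- the points -/
noncomputable def pts (F : Finset (Finset V)) : Finset V := F.biUnion id

theorem mem_pts {p : V} : p ∈ pts F ↔ ∃ S ∈ F, p ∈ S := by
  simp only [pts, Finset.mem_biUnion, id]

theorem deg_pts (h : Plane F) {p : V} (hp : p ∈ pts F) : (F.filter (fun T => p ∈ T)).card = 3 := by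
  obtain ⟨S, hS, hpS⟩ := mem_pts.mp hp
  exact h.deg_eq hS hpS

theorem card_pts (h : Plane F) : (pts F).card = 7 := by
  have h1 := dcount (pts F) F (fun p T => p ∈ T)
  rw [Finset.sum_congr rfl (fun p hp => h.deg_pts hp), Finset.sum_const, smul_eq_mul] at h1
  have h2 : ∀ T ∈ F, ((pts F).filter (fun p => p ∈ T)).card = 3 := by
    intro T hT
    have h3 : (pts F).filter (fun p => p ∈ T) = T := by
      ext x
      simp only [Finset.mem_filter]
      exact ⟨fun hx => hx.2, fun hx => ⟨mem_pts.mpr ⟨T, hT, hx⟩, hx⟩⟩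
    rw [h3]; exact h.h3 T hT
  rw [Finset.sum_congr rfl h2, Finset.sum_const, smul_eq_mul, h.card_eq] at h1
  omega

theorem two_pts_le (h : Plane F) {p x : V} (hpx : p ≠ x) :
    (F.filter (fun T => p ∈ T ∧ x ∈ T)).card ≤ 1 := by
  rw [Finset.card_le_one]
  intro T hT T' hT'
  rw [Finset.mem_filter] at hT hT'
  exact h.eq_of_two hT.1 hT'.1 hpx hT.2.1 hT'.2.1 hT.2.2 hT'.2.2

theorem two_pts (h : Plane F) {p x : V} (hp : p ∈ pts F) (hx : x ∈ pts F) (hpx : p ≠ x) :
    (F.filter (fun T => p ∈ T ∧ x ∈ T)).card = 1 := by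
  have h1 := dcount ((pts F).erase p) (F.filter (fun T => p ∈ T)) (fun x T => x ∈ T)
  have h2 : ∀ T ∈ F.filter (fun T => p ∈ T),
      (((pts F).erase p).filter (fun x => x ∈ T)).card = 2 := by
    intro T hT
    rw [Finset.mem_filter] at hT
    have h3 : ((pts F).erase p).filter (fun x => x ∈ T) = T.erase p := by
      ext y
      simp only [Finset.mem_filter, Finset.mem_erase]
      exact ⟨fun hy => ⟨hy.1.1, hy.2⟩, fun hy => ⟨⟨hy.1, mem_pts.mpr ⟨T, hT.1, hy.2⟩⟩, hy.2⟩⟩
    rw [h3, Finset.card_erase_of_mem hT.2, h.h3 T hT.1]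
  rw [Finset.sum_congr rfl h2, Finset.sum_const, smul_eq_mul, h.deg_pts hp] at h1
  have h4 : ∀ y ∈ (pts F).erase p,
      ((F.filter (fun T => p ∈ T)).filter (fun T => y ∈ T)).card ≤ 1 := by
    intro y hy
    rw [Finset.filter_filter]
    exact h.two_pts_le (Ne.symm (Finset.ne_of_mem_erase hy))
  have h5 : ∑ y ∈ (pts F).erase p, ((F.filter (fun T => p ∈ T)).filter (fun T => y ∈ T)).card =
      ∑ y ∈ (pts F).erase p, 1 := by
    rw [h1, Finset.sum_const, Finset.card_erase_of_mem hp, h.card_pts, smul_eq_mul]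
  have h6 := (Finset.sum_eq_sum_iff_of_le h4).mp h5 x (Finset.mem_erase.mpr ⟨Ne.symm hpx, hx⟩)
  rw [Finset.filter_filter] at h6
  exact h6

theorem miss_card (h : Plane F) {p : V} (hp : p ∈ pts F) :
    (F.filter (fun T => p ∉ T)).card = 4 := by
  have h1 := Finset.card_filter_add_card_filter_not (s := F) (fun T => p ∈ T)
  rw [h.deg_pts hp, h.card_eq] at h1
  omega

theorem miss_two (h : Plane F) {p x : V} (hp : p ∈ pts F) (hx : x ∈ pts F) (hpx : p ≠ x) :
    (F.filter (fun T => x ∈ T ∧ p ∉ T)).card = 2 := by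
  have h1 := Finset.card_filter_add_card_filter_not (s := F.filter (fun T => x ∈ T))
    (fun T => p ∈ T)
  rw [Finset.filter_filter, Finset.filter_filter, h.deg_pts hx, h.two_pts hx hp (Ne.symm hpx)] at h1
  omega

/-- a set of neighbours of `p` meeting all lines which miss `p` -/
theorem nb_ge (h : Plane F) {p : V} (hp : p ∈ pts F) {D : Finset V} (hD : D ⊆ pts F) (hpD : p ∉ D)
    (hhit : ∀ S ∈ F, p ∉ S → ∃ x ∈ D, x ∈ S) : 2 ≤ D.card := by
  have hsub : F.filter (fun T => p ∉ T) ⊆ D.biUnion (fun x => F.filter (fun T => x ∈ T ∧ p ∉ T)) := by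
    intro T hT
    rw [Finset.mem_filter] at hT
    obtain ⟨x, hx, hxT⟩ := hhit T hT.1 hT.2
    rw [Finset.mem_biUnion]
    exact ⟨x, hx, Finset.mem_filter.mpr ⟨hT.1, hxT, hT.2⟩⟩
  have h2 := Finset.card_le_card hsub
  have h3 := Finset.card_biUnion_le_card_mul D
    (fun x => F.filter (fun T => x ∈ T ∧ p ∉ T)) 2 (by
      intro x hx
      have hpx : p ≠ x := by rintro rfl; exact hpD hx
      rw [h.miss_two hp (hD hx) hpx])
  rw [h.miss_card hp] at h2
  omega

theorem nb_two (h : Plane F) {p : V} (hp : p ∈ pts F) {D : Finset V} (hD : D ⊆ pts F) (hpD : p ∉ D)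
    (hhit : ∀ S ∈ F, p ∉ S → ∃ x ∈ D, x ∈ S) (h2 : D.card = 2) : insert p D ∈ F := by
  obtain ⟨x, y, hxy, rfl⟩ := Finset.card_eq_two.mp h2
  have hx : x ∈ pts F := hD (by simp)
  have hy : y ∈ pts F := hD (by simp)
  have hpx : p ≠ x := by rintro rfl; exact hpD (by simp)
  have hpy : p ≠ y := by rintro rfl; exact hpD (by simp)
  obtain ⟨T, hT⟩ := Finset.card_pos.mp (by rw [h.two_pts hx hy hxy]; norm_num :
    0 < (F.filter (fun T => x ∈ T ∧ y ∈ T)).card)
  rw [Finset.mem_filter] at hT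
  have hpT : p ∈ T := by
    by_contra hpT
    have hsub : F.filter (fun T => p ∉ T) ⊆ (F.filter (fun T => x ∈ T ∧ p ∉ T)) ∪
        (F.filter (fun T => y ∈ T ∧ p ∉ T)) := by
      intro S hS
      rw [Finset.mem_filter] at hS
      obtain ⟨z, hz, hzS⟩ := hhit S hS.1 hS.2
      rw [Finset.mem_union, Finset.mem_filter, Finset.mem_filter]
      simp only [Finset.mem_insert, Finset.mem_singleton] at hz
      rcases hz with rfl | rfl
      · exact Or.inl ⟨hS.1, hzS, hS.2⟩
      · exact Or.inr ⟨hS.1, hzS, hS.2⟩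
    have e1 := Finset.card_le_card hsub
    have e2 := Finset.card_union_add_card_inter (F.filter (fun T => x ∈ T ∧ p ∉ T))
      (F.filter (fun T => y ∈ T ∧ p ∉ T))
    have e3 : 0 < ((F.filter (fun T => x ∈ T ∧ p ∉ T)) ∩
        (F.filter (fun T => y ∈ T ∧ p ∉ T))).card := by
      apply Finset.card_pos.mpr
      refine ⟨T, ?_⟩
      rw [Finset.mem_inter, Finset.mem_filter, Finset.mem_filter]
      exact ⟨⟨hT.1, hT.2.1, hpT⟩, hT.1, hT.2.2, hpT⟩
    rw [h.miss_card hp] at e1
    rw [h.miss_two hp hx hpx, h.miss_two hp hy hpy] at e2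
    omega
  have h5 : insert p {x, y} = T := by
    apply Finset.eq_of_subset_of_card_le
    · intro z hz
      simp only [Finset.mem_insert, Finset.mem_singleton] at hz
      rcases hz with rfl | rfl | rfl
      · exact hpT
      · exact hT.2.1
      · exact hT.2.2
    · rw [h.h3 T hT.1, Finset.card_insert_of_notMem hpD, h2]
  rw [h5]
  exact hT.1

/-- a set of points meeting all lines -/
theorem block_ge (h : Plane F) {D : Finset V} (hhit : ∀ S ∈ F, ∃ x ∈ D, x ∈ S) : 3 ≤ D.card := by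
  have hsub : F ⊆ D.biUnion (fun x => F.filter (fun T => x ∈ T)) := by
    intro T hT
    obtain ⟨x, hx, hxT⟩ := hhit T hT
    rw [Finset.mem_biUnion]
    exact ⟨x, hx, Finset.mem_filter.mpr ⟨hT, hxT⟩⟩
  have h2 := Finset.card_le_card hsub
  have h3 := Finset.card_biUnion_le_card_mul D (fun x => F.filter (fun T => x ∈ T)) 3
    (fun x _ => h.deg_le x)
  rw [h.card_eq] at h2
  omega

/-- the number of pairs of adjacent points is at least `16` -/
theorem hub (h : Plane F) [Fintype V] (G : SimpleGraph V)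
    (hhit : ∀ p ∈ pts F, ∀ S ∈ F, p ∉ S → ∃ x, x ∈ S ∧ G.Adj p x) :
    16 ≤ ∑ p ∈ pts F, (G.neighborFinset p ∩ pts F).card := by
  have hhit' : ∀ p ∈ pts F, ∀ S ∈ F, p ∉ S → ∃ x ∈ G.neighborFinset p ∩ pts F, x ∈ S := by
    intro p hp S hS hpS
    obtain ⟨x, hx, hpx⟩ := hhit p hp S hS hpS
    exact ⟨x, Finset.mem_inter.mpr ⟨(G.mem_neighborFinset p x).mpr hpx, mem_pts.mpr ⟨S, hS, hx⟩⟩, hx⟩
  have hsub : ∀ p, G.neighborFinset p ∩ pts F ⊆ pts F := fun p => Finset.inter_subset_right
  have hself : ∀ p, p ∉ G.neighborFinset p ∩ pts F := by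
    intro p hp
    rw [Finset.mem_inter, G.mem_neighborFinset] at hp
    exact G.loopless.irrefl p hp.1
  have h2 : ∀ p ∈ pts F, 2 ≤ (G.neighborFinset p ∩ pts F).card := fun p hp =>
    h.nb_ge hp (hsub p) (hself p) (hhit' p hp)
  -- parity
  have heven : Even (∑ p ∈ pts F, (G.neighborFinset p ∩ pts F).card) := by
    let H : SimpleGraph V :=
      { Adj := fun a b => G.Adj a b ∧ a ∈ pts F ∧ b ∈ pts F
        symm := ⟨fun a b hab => ⟨hab.1.symm, hab.2.2, hab.2.1⟩⟩
        loopless := ⟨fun a ha => G.loopless.irrefl a ha.1⟩ }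
    have h3 := H.sum_degrees_eq_twice_card_edges
    have h4 : ∑ p ∈ pts F, (G.neighborFinset p ∩ pts F).card = ∑ v, H.degree v := by
      rw [← Finset.sum_subset (Finset.subset_univ (pts F))]
      · refine Finset.sum_congr rfl (fun p hp => ?_)
        rw [← SimpleGraph.card_neighborFinset_eq_degree]
        congr 1
        ext x
        rw [Finset.mem_inter, G.mem_neighborFinset, H.mem_neighborFinset]
        exact ⟨fun hx => ⟨hx.1, hp, hx.2⟩, fun hx => ⟨hx.1, hx.2.2⟩⟩
      · intro p _ hp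
        rw [← SimpleGraph.card_neighborFinset_eq_degree, Finset.card_eq_zero,
          Finset.eq_empty_iff_forall_notMem]
        intro x hx
        rw [H.mem_neighborFinset] at hx
        exact hp hx.2.1
    rw [h4, h3]
    exact even_two_mul _
  by_contra hlt
  push Not at hlt
  have hge : ∑ p ∈ pts F, 2 ≤ ∑ p ∈ pts F, (G.neighborFinset p ∩ pts F).card :=
    Finset.sum_le_sum h2
  have hc : ∑ p ∈ pts F, 2 = 14 := by
    rw [Finset.sum_const, h.card_pts, smul_eq_mul]
  have heq : ∑ p ∈ pts F, 2 = ∑ p ∈ pts F, (G.neighborFinset p ∩ pts F).card := by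
    obtain ⟨k, hk⟩ := heven
    omega
  have hall : ∀ p ∈ pts F, (G.neighborFinset p ∩ pts F).card = 2 := fun p hp =>
    ((Finset.sum_eq_sum_iff_of_le h2).mp heq p hp).symm
  have hline : ∀ p ∈ pts F, insert p (G.neighborFinset p ∩ pts F) ∈ F := fun p hp =>
    h.nb_two hp (hsub p) (hself p) (hhit' p hp) (hall p hp)
  obtain ⟨p, hp⟩ := Finset.card_pos.mp (by rw [h.card_pts]; norm_num : 0 < (pts F).card)
  have hS := hline p hp
  obtain ⟨p', hp', hp'S⟩ : ∃ p' ∈ pts F, p' ∉ insert p (G.neighborFinset p ∩ pts F) := by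
    apply Finset.exists_mem_notMem_of_card_lt_card
    rw [h.h3 _ hS, h.card_pts]
    norm_num
  have hS' := hline p' hp'
  have hne : insert p (G.neighborFinset p ∩ pts F) ≠ insert p' (G.neighborFinset p' ∩ pts F) := by
    intro he
    apply hp'S
    rw [he]
    exact Finset.mem_insert_self _ _
  obtain ⟨r, hr⟩ := Finset.card_pos.mp (by rw [h.h1 _ hS _ hS' hne]; norm_num :
    0 < (insert p (G.neighborFinset p ∩ pts F) ∩ insert p' (G.neighborFinset p' ∩ pts F)).card)
  rw [Finset.mem_inter] at hr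
  obtain ⟨hr1, hr2⟩ := hr
  have hrp' : r ≠ p' := by rintro rfl; exact hp'S hr1
  have hrN' : r ∈ G.neighborFinset p' ∩ pts F := Finset.mem_of_mem_insert_of_ne hr2 hrp'
  rw [Finset.mem_inter, G.mem_neighborFinset] at hrN'
  have hrp : r ≠ p := by
    rintro rfl
    apply hp'S
    apply Finset.mem_insert_of_mem
    rw [Finset.mem_inter, G.mem_neighborFinset]
    exact ⟨hrN'.1.symm, hp'⟩
  have hrN : r ∈ G.neighborFinset p ∩ pts F := Finset.mem_of_mem_insert_of_ne hr1 hrp
  rw [Finset.mem_inter, G.mem_neighborFinset] at hrN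
  have hrS := hline r hrN.2
  have hpp' : p ≠ p' := by rintro rfl; exact hp'S (Finset.mem_insert_self _ _)
  have hpr : p ∈ insert r (G.neighborFinset r ∩ pts F) := by
    apply Finset.mem_insert_of_mem
    rw [Finset.mem_inter, G.mem_neighborFinset]
    exact ⟨hrN.1.symm, hp⟩
  have hp'r : p' ∈ insert r (G.neighborFinset r ∩ pts F) := by
    apply Finset.mem_insert_of_mem
    rw [Finset.mem_inter, G.mem_neighborFinset]
    exact ⟨hrN'.1.symm, hp'⟩
  have heqS := h.eq_of_two hrS hS hrp (Finset.mem_insert_self _ _) hr1 hpr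
    (Finset.mem_insert_self _ _)
  rw [heqS] at hp'r
  exact hp'S hp'r

end Plane

end Pool.Agent.Helper114.D2
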