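import Mathlib

/-!
# Nearly extremal intersecting families of triples

`W` is a finite set of indices, `X i` a triple for `i ∈ W`, any two triples meet, every point lies in at
most `3 m` of the triples, every triple is repeated at most `1.005 m` times, and `|W| ≥ 6.99 m`. Then
two different triples meet in exactly one point.
-/

set_option autoImplicit false

open scoped Classical

namespace Pool.Agent.Helper114.D2

variable {ι V : Type}

/-- the number of indices of `W` with the property `P` -/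
noncomputable def cnt (W : Finset ι) (P : ι → Prop) : ℕ := (W.filter P).card

theorem cnt_eq (W : Finset ι) (P : ι → Prop) [DecidablePred P] : cnt W P = (W.filter P).card := by
  unfold cnt; congr 1; ext i; simp only [Finset.mem_filter]

theorem cnt_mono {W : Finset ι} {P Q : ι → Prop} (h : ∀ i ∈ W, P i → Q i) : cnt W P ≤ cnt W Q := by
  apply Finset.card_le_card
  intro i hi
  rw [Finset.mem_filter] at hi ⊢
  exact ⟨hi.1, h i hi.1 hi.2⟩

theorem cnt_or_add_and (W : Finset ι) (P Q : ι → Prop) :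
    cnt W (fun i => P i ∨ Q i) + cnt W (fun i => P i ∧ Q i) = cnt W P + cnt W Q := by
  have h1 : cnt W (fun i => P i ∨ Q i) = (W.filter P ∪ W.filter Q).card := by
    unfold cnt; congr 1; ext i; simp only [Finset.mem_filter, Finset.mem_union]; tauto
  have h2 : cnt W (fun i => P i ∧ Q i) = (W.filter P ∩ W.filter Q).card := by
    unfold cnt; congr 1; ext i; simp only [Finset.mem_filter, Finset.mem_inter]; tauto
  rw [h1, h2, Finset.card_union_add_card_inter]
  rfl

theorem cnt_or_le (W : Finset ι) (P Q : ι → Prop) :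
    cnt W (fun i => P i ∨ Q i) ≤ cnt W P + cnt W Q := by
  have := cnt_or_add_and W P Q
  omega

theorem cnt_add_not (W : Finset ι) (P : ι → Prop) :
    cnt W P + cnt W (fun i => ¬ P i) = W.card := by
  have h1 : cnt W (fun i => ¬ P i) = (W \ W.filter P).card := by
    unfold cnt; congr 1; ext i; simp only [Finset.mem_filter, Finset.mem_sdiff]; tauto
  have h2 : cnt W P = (W.filter P).card := rfl
  have h3 := Finset.card_sdiff_add_card_eq_card (Finset.filter_subset P W)
  omega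

theorem cnt_pos {W : Finset ι} {P : ι → Prop} (h : 0 < cnt W P) : ∃ i ∈ W, P i := by
  obtain ⟨i, hi⟩ := Finset.card_pos.mp h
  rw [Finset.mem_filter] at hi
  exact ⟨i, hi.1, hi.2⟩

/-- disjoint properties -/
theorem cnt_add_le {W : Finset ι} {P Q R : ι → Prop} (h1 : ∀ i ∈ W, P i → R i)
    (h2 : ∀ i ∈ W, Q i → R i) (h3 : ∀ i ∈ W, P i → ¬ Q i) : cnt W P + cnt W Q ≤ cnt W R := by
  rw [← cnt_or_add_and W P Q]
  have h4 : cnt W (fun i => P i ∧ Q i) = 0 := by
    by_contra h0
    obtain ⟨i, hi, h⟩ := cnt_pos (Nat.pos_of_ne_zero h0)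
    exact h3 i hi h.1 h.2
  rw [h4, add_zero]
  exact cnt_mono (fun i hi h => h.elim (h1 i hi) (h2 i hi))

/-- a triple containing three different points -/
theorem eq_triple {S : Finset V} (hS : S.card = 3) {a b c : V} (ha : a ∈ S) (hb : b ∈ S)
    (hc : c ∈ S) (hab : a ≠ b) (hac : a ≠ c) (hbc : b ≠ c) : S = {a, b, c} := by
  symm
  apply Finset.eq_of_subset_of_card_le
  · intro x hx
    simp only [Finset.mem_insert, Finset.mem_singleton] at hx
    rcases hx with rfl | rfl | rfl <;> assumption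
  · rw [hS, Finset.card_eq_three.mpr ⟨a, b, c, hab, hac, hbc, rfl⟩]

/-- the third point of a triple -/
theorem third {S : Finset V} (hS : S.card = 3) {a b : V} (ha : a ∈ S) (hb : b ∈ S) (hab : a ≠ b) :
    ∃ c, c ≠ a ∧ c ≠ b ∧ S = {a, b, c} := by
  have h1 : ({a, b} : Finset V) ⊆ S := by
    intro x hx
    simp only [Finset.mem_insert, Finset.mem_singleton] at hx
    rcases hx with rfl | rfl <;> assumption
  have h2 : ({a, b} : Finset V).card = 2 := Finset.card_pair hab
  obtain ⟨c, hc, hc2⟩ : ∃ c ∈ S, c ∉ ({a, b} : Finset V) := by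
    apply Finset.exists_mem_notMem_of_card_lt_card
    omega
  simp only [Finset.mem_insert, Finset.mem_singleton, not_or] at hc2
  exact ⟨c, hc2.1, hc2.2, eq_triple hS ha hb hc hab (Ne.symm hc2.1) (Ne.symm hc2.2)⟩

theorem linear {W : Finset ι} {X : ι → Finset V} {m : ℕ} (hm : 0 < m)
    (h3 : ∀ i ∈ W, (X i).card = 3) (hint : ∀ i ∈ W, ∀ j ∈ W, ∃ p, p ∈ X i ∧ p ∈ X j)
    (hload : ∀ p, cnt W (fun i => p ∈ X i) ≤ 3 * m)
    (htype : ∀ S, 200 * cnt W (fun i => X i = S) ≤ 201 * m) (hW : 699 * m ≤ 100 * W.card)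
    {i j : ι} (hi : i ∈ W) (hj : j ∈ W) (hne : X i ≠ X j) {a b : V} (hab : a ≠ b)
    (hai : a ∈ X i) (hbi : b ∈ X i) (haj : a ∈ X j) (hbj : b ∈ X j) : False := by
  obtain ⟨c, hca, hcb, hXi⟩ := third (h3 i hi) hai hbi hab
  obtain ⟨d, hda, hdb, hXj⟩ := third (h3 j hj) haj hbj hab
  have hcd : c ≠ d := by
    rintro rfl
    exact hne (hXi.trans hXj.symm)
  -- meeting `{a,b,c}` and `{a,b,d}`
  have m1 : ∀ k ∈ W, a ∈ X k ∨ b ∈ X k ∨ c ∈ X k := by
    intro k hk
    obtain ⟨p, hp1, hp2⟩ := hint k hk i hi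
    rw [hXi] at hp2
    simp only [Finset.mem_insert, Finset.mem_singleton] at hp2
    rcases hp2 with rfl | rfl | rfl
    · exact Or.inl hp1
    · exact Or.inr (Or.inl hp1)
    · exact Or.inr (Or.inr hp1)
  have m2 : ∀ k ∈ W, a ∈ X k ∨ b ∈ X k ∨ d ∈ X k := by
    intro k hk
    obtain ⟨p, hp1, hp2⟩ := hint k hk j hj
    rw [hXj] at hp2
    simp only [Finset.mem_insert, Finset.mem_singleton] at hp2
    rcases hp2 with rfl | rfl | rfl
    · exact Or.inl hp1
    · exact Or.inr (Or.inl hp1)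
    · exact Or.inr (Or.inr hp1)
  have e1 := cnt_or_add_and W (fun k => a ∈ X k) (fun k => b ∈ X k)
  have e2 := cnt_add_not W (fun k => a ∈ X k ∨ b ∈ X k)
  have e3 := cnt_or_add_and W (fun k => c ∈ X k) (fun k => d ∈ X k)
  have e4 := cnt_add_not W (fun k => c ∈ X k ∨ d ∈ X k)
  have la := hload a
  have lb := hload b
  have lc := hload c
  have ld := hload d
  have hxcd : cnt W (fun k => ¬ (a ∈ X k ∨ b ∈ X k)) ≤ cnt W (fun k => c ∈ X k ∧ d ∈ X k) := by
    apply cnt_mono
    intro k hk hn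
    rw [not_or] at hn
    exact ⟨((m1 k hk).resolve_left hn.1).resolve_left hn.2,
      ((m2 k hk).resolve_left hn.1).resolve_left hn.2⟩
  set x := cnt W (fun k => ¬ (a ∈ X k ∨ b ∈ X k)) with hx
  set z := cnt W (fun k => ¬ (c ∈ X k ∨ d ∈ X k)) with hz
  set ab := cnt W (fun k => a ∈ X k ∧ b ∈ X k) with habc
  -- a first triple missing `a`, `b`
  obtain ⟨k0, hk0, hk0n⟩ : ∃ k ∈ W, ¬ (a ∈ X k ∨ b ∈ X k) := by
    apply cnt_pos
    omega
  have hk0c : c ∈ X k0 := by
    rw [not_or] at hk0n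
    exact ((m1 k0 hk0).resolve_left hk0n.1).resolve_left hk0n.2
  have hk0d : d ∈ X k0 := by
    rw [not_or] at hk0n
    exact ((m2 k0 hk0).resolve_left hk0n.1).resolve_left hk0n.2
  obtain ⟨y, hyc, hyd, hXk0⟩ := third (h3 k0 hk0) hk0c hk0d hcd
  have hyX : y ∈ X k0 := by rw [hXk0]; simp
  have hya : y ≠ a := by rintro rfl; exact hk0n (Or.inl hyX)
  have hyb : y ≠ b := by rintro rfl; exact hk0n (Or.inr hyX)
  -- the triples missing `c`, `d` contain `y`
  have hzy : ∀ k ∈ W, ¬ (c ∈ X k ∨ d ∈ X k) → y ∈ X k := by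
    intro k hk hn
    rw [not_or] at hn
    obtain ⟨p, hp1, hp2⟩ := hint k hk k0 hk0
    rw [hXk0] at hp2
    simp only [Finset.mem_insert, Finset.mem_singleton] at hp2
    rcases hp2 with rfl | rfl | rfl
    · exact absurd hp1 hn.1
    · exact absurd hp1 hn.2
    · exact hp1
  have hzab : ∀ k ∈ W, ¬ (c ∈ X k ∨ d ∈ X k) → a ∈ X k ∨ b ∈ X k := by
    intro k hk hn
    rw [not_or] at hn
    rcases m1 k hk with h | h | h
    · exact Or.inl h
    · exact Or.inr h
    · exact absurd h hn.1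
  by_cases hY : ∃ k ∈ W, ¬ (a ∈ X k ∨ b ∈ X k) ∧ y ∉ X k
  · -- case 1
    obtain ⟨k1, hk1, hk1n, hk1y⟩ := hY
    have hk1c : c ∈ X k1 := by
      rw [not_or] at hk1n
      exact ((m1 k1 hk1).resolve_left hk1n.1).resolve_left hk1n.2
    have hk1d : d ∈ X k1 := by
      rw [not_or] at hk1n
      exact ((m2 k1 hk1).resolve_left hk1n.1).resolve_left hk1n.2
    obtain ⟨y2, hy2c, hy2d, hXk1⟩ := third (h3 k1 hk1) hk1c hk1d hcd
    have hy2X : y2 ∈ X k1 := by rw [hXk1]; simp
    have hy2a : y2 ≠ a := by rintro rfl; exact hk1n (Or.inl hy2X)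
    have hy2b : y2 ≠ b := by rintro rfl; exact hk1n (Or.inr hy2X)
    have hyy2 : y ≠ y2 := by rintro rfl; exact hk1y hy2X
    have hzy2 : ∀ k ∈ W, ¬ (c ∈ X k ∨ d ∈ X k) → y2 ∈ X k := by
      intro k hk hn
      rw [not_or] at hn
      obtain ⟨p, hp1, hp2⟩ := hint k hk k1 hk1
      rw [hXk1] at hp2
      simp only [Finset.mem_insert, Finset.mem_singleton] at hp2
      rcases hp2 with rfl | rfl | rfl
      · exact absurd hp1 hn.1
      · exact absurd hp1 hn.2
      · exact hp1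
    have ta := htype {a, y, y2}
    have tb := htype {b, y, y2}
    have hz1 : z ≤ cnt W (fun k => X k = {a, y, y2} ∧ ¬ (c ∈ X k ∨ d ∈ X k)) +
        cnt W (fun k => X k = {b, y, y2} ∧ ¬ (c ∈ X k ∨ d ∈ X k)) := by
      refine le_trans ?_ (cnt_or_le W _ _)
      apply cnt_mono
      intro k hk hn
      have q1 := hzy k hk hn
      have q2 := hzy2 k hk hn
      rcases hzab k hk hn with h | h
      · exact Or.inl ⟨eq_triple (h3 k hk) h q1 q2 (Ne.symm hya) (Ne.symm hy2a) hyy2, hn⟩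
      · exact Or.inr ⟨eq_triple (h3 k hk) h q1 q2 (Ne.symm hyb) (Ne.symm hy2b) hyy2, hn⟩
    have hza : cnt W (fun k => X k = {a, y, y2} ∧ ¬ (c ∈ X k ∨ d ∈ X k)) ≤
        cnt W (fun k => X k = {a, y, y2}) := cnt_mono (fun k _ h => h.1)
    have hzb : cnt W (fun k => X k = {b, y, y2} ∧ ¬ (c ∈ X k ∨ d ∈ X k)) ≤
        cnt W (fun k => X k = {b, y, y2}) := cnt_mono (fun k _ h => h.1)
    obtain ⟨ka, hka, hkaX, -⟩ : ∃ k ∈ W, X k = {a, y, y2} ∧ ¬ (c ∈ X k ∨ d ∈ X k) := by
      apply cnt_pos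
      omega
    obtain ⟨kb, hkb, hkbX, -⟩ : ∃ k ∈ W, X k = {b, y, y2} ∧ ¬ (c ∈ X k ∨ d ∈ X k) := by
      apply cnt_pos
      omega
    have hall : W.card ≤ cnt W (fun k => y ∈ X k ∨ y2 ∈ X k) + ab := by
      rw [← cnt_add_not W (fun k => y ∈ X k ∨ y2 ∈ X k)]
      apply Nat.add_le_add_left
      apply cnt_mono
      intro k hk hn
      rw [not_or] at hn
      constructor
      · obtain ⟨p, hp1, hp2⟩ := hint k hk ka hka
        rw [hkaX] at hp2
        simp only [Finset.mem_insert, Finset.mem_singleton] at hp2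
        rcases hp2 with rfl | rfl | rfl
        · exact hp1
        · exact absurd hp1 hn.1
        · exact absurd hp1 hn.2
      · obtain ⟨p, hp1, hp2⟩ := hint k hk kb hkb
        rw [hkbX] at hp2
        simp only [Finset.mem_insert, Finset.mem_singleton] at hp2
        rcases hp2 with rfl | rfl | rfl
        · exact hp1
        · exact absurd hp1 hn.1
        · exact absurd hp1 hn.2
    have hzz : z ≤ cnt W (fun k => y ∈ X k ∧ y2 ∈ X k) :=
      cnt_mono (fun k hk hn => ⟨hzy k hk hn, hzy2 k hk hn⟩)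
    have e5 := cnt_or_add_and W (fun k => y ∈ X k) (fun k => y2 ∈ X k)
    have ly := hload y
    have ly2 := hload y2
    omega
  · -- case 2
    push Not at hY
    have hxy : x ≤ cnt W (fun k => X k = {c, d, y}) := by
      apply cnt_mono
      intro k hk hn
      have q1 := hY k hk (by rw [not_or] at hn; exact hn)
      rw [not_or] at hn
      exact eq_triple (h3 k hk) (((m1 k hk).resolve_left hn.1).resolve_left hn.2)
        (((m2 k hk).resolve_left hn.1).resolve_left hn.2) q1 hcd (Ne.symm hyc) (Ne.symm hyd)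
    have tx := htype {c, d, y}
    have ly := hload y
    -- the triples missing `y` and not containing both `a`, `b`
    have hR : W.card ≤ cnt W (fun k => y ∉ X k ∧ ¬ (a ∈ X k ∧ b ∈ X k)) +
        cnt W (fun k => y ∈ X k) + ab := by
      have q1 := cnt_add_not W (fun k => y ∈ X k)
      have q2 : cnt W (fun k => ¬ y ∈ X k) ≤
          cnt W (fun k => y ∉ X k ∧ ¬ (a ∈ X k ∧ b ∈ X k)) + ab := by
        refine le_trans ?_ (cnt_or_le W _ _)
        apply cnt_mono
        intro k _ hn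
        by_cases h : a ∈ X k ∧ b ∈ X k
        · exact Or.inr h
        · exact Or.inl ⟨hn, h⟩
      omega
    set R := cnt W (fun k => y ∉ X k ∧ ¬ (a ∈ X k ∧ b ∈ X k)) with hRdef
    have hRab : ∀ k ∈ W, y ∉ X k → (a ∈ X k ∨ b ∈ X k) ∧ (c ∈ X k ∨ d ∈ X k) := by
      intro k hk hy
      constructor
      · by_contra hn
        exact hy (hY k hk (by rw [not_or] at hn; exact hn))
      · by_contra hn
        exact hy (hzy k hk hn)
    have hRsum : R ≤ cnt W (fun k => y ∉ X k ∧ a ∈ X k ∧ b ∉ X k) +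
        cnt W (fun k => y ∉ X k ∧ b ∈ X k ∧ a ∉ X k) := by
      refine le_trans ?_ (cnt_or_le W _ _)
      apply cnt_mono
      rintro k hk ⟨hy, hn⟩
      rcases (hRab k hk hy).1 with h | h
      · exact Or.inl ⟨hy, h, fun h' => hn ⟨h, h'⟩⟩
      · exact Or.inr ⟨hy, h, fun h' => hn ⟨h', h⟩⟩
    have hRa : cnt W (fun k => y ∉ X k ∧ a ∈ X k ∧ b ∉ X k) ≤ cnt W (fun k => a ∈ X k) :=
      cnt_mono (fun k _ h => h.2.1)
    have hRb : cnt W (fun k => y ∉ X k ∧ b ∈ X k ∧ a ∉ X k) ≤ cnt W (fun k => b ∈ X k) :=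
      cnt_mono (fun k _ h => h.2.1)
    obtain ⟨ra, hra, hray, hraa, hrab⟩ : ∃ k ∈ W, y ∉ X k ∧ a ∈ X k ∧ b ∉ X k := by
      apply cnt_pos
      omega
    obtain ⟨rb, hrb, hrby, hrbb, hrba⟩ : ∃ k ∈ W, y ∉ X k ∧ b ∈ X k ∧ a ∉ X k := by
      apply cnt_pos
      omega
    -- the triples missing `c`, `d`
    have hzsum : z ≤ cnt W (fun k => ¬ (c ∈ X k ∨ d ∈ X k) ∧ b ∉ X k) +
        cnt W (fun k => ¬ (c ∈ X k ∨ d ∈ X k) ∧ a ∉ X k) + ab := by
      have q1 := cnt_or_le W (fun k => (¬ (c ∈ X k ∨ d ∈ X k) ∧ b ∉ X k) ∨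
        (¬ (c ∈ X k ∨ d ∈ X k) ∧ a ∉ X k)) (fun k => a ∈ X k ∧ b ∈ X k)
      have q2 := cnt_or_le W (fun k => ¬ (c ∈ X k ∨ d ∈ X k) ∧ b ∉ X k)
        (fun k => ¬ (c ∈ X k ∨ d ∈ X k) ∧ a ∉ X k)
      have q3 : z ≤ cnt W (fun k => ((¬ (c ∈ X k ∨ d ∈ X k) ∧ b ∉ X k) ∨
        (¬ (c ∈ X k ∨ d ∈ X k) ∧ a ∉ X k)) ∨ (a ∈ X k ∧ b ∈ X k)) := by
        apply cnt_mono
        intro k _ hn
        by_cases h1 : a ∈ X k
        · by_cases h2 : b ∈ X k
          · exact Or.inr ⟨h1, h2⟩
          · exact Or.inl (Or.inl ⟨hn, h2⟩)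
        · exact Or.inl (Or.inr ⟨hn, h1⟩)
      omega
    -- the point `q`: `ra` meets every `{b, y, q}`
    have key : ∀ (u v : V), u ≠ v → (u = a ∧ v = b ∨ u = b ∧ v = a) → ∀ r ∈ W, y ∉ X r → u ∈ X r →
        v ∉ X r → ∃ q, (∀ k ∈ W, ¬ (c ∈ X k ∨ d ∈ X k) ∧ u ∉ X k → X k = {v, y, q}) := by
      intro u v huv huv' r hr hry hru hrv
      have hcdr := (hRab r hr hry).2
      obtain ⟨t, ht1, ht2, ht3⟩ : ∃ t, t ∈ X r ∧ (t = c ∨ t = d) ∧ t ≠ u := by
        rcases hcdr with h | h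
        · refine ⟨c, h, Or.inl rfl, ?_⟩
          rcases huv' with ⟨rfl, _⟩ | ⟨rfl, _⟩ <;> assumption
        · refine ⟨d, h, Or.inr rfl, ?_⟩
          rcases huv' with ⟨rfl, _⟩ | ⟨rfl, _⟩ <;> assumption
      obtain ⟨q, hq1, hq2, hXr⟩ := third (h3 r hr) hru ht1 (Ne.symm ht3)
      refine ⟨q, ?_⟩
      rintro k hk ⟨hn, huk⟩
      have hyk := hzy k hk hn
      have hvk : v ∈ X k := by
        have := hzab k hk hn
        rcases huv' with ⟨rfl, rfl⟩ | ⟨rfl, rfl⟩
        · exact this.resolve_left huk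
        · exact this.resolve_right huk
      have hqk : q ∈ X k := by
        obtain ⟨p, hp1, hp2⟩ := hint k hk r hr
        rw [hXr] at hp2
        simp only [Finset.mem_insert, Finset.mem_singleton] at hp2
        rcases hp2 with rfl | rfl | rfl
        · exact absurd hp1 huk
        · exfalso
          rcases ht2 with rfl | rfl
          · exact hn (Or.inl hp1)
          · exact hn (Or.inr hp1)
        · exact hp1
      have hqr : q ∈ X r := by rw [hXr]; simp
      have hvy : v ≠ y := by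
        rcases huv' with ⟨_, rfl⟩ | ⟨_, rfl⟩
        · exact Ne.symm hyb
        · exact Ne.symm hya
      refine eq_triple (h3 k hk) hvk hyk hqk hvy ?_ ?_
      · rintro rfl; exact hrv hqr
      · rintro rfl; exact hry hqr
    obtain ⟨q0, hq0⟩ := key a b hab (Or.inl ⟨rfl, rfl⟩) ra hra hray hraa hrab
    obtain ⟨p0, hp0⟩ := key b a (Ne.symm hab) (Or.inr ⟨rfl, rfl⟩) rb hrb hrby hrbb hrba
    have tq := htype {b, y, q0}
    have tp := htype {a, y, p0}
    have hzb : cnt W (fun k => ¬ (c ∈ X k ∨ d ∈ X k) ∧ a ∉ X k) ≤ cnt W (fun k => X k = {b, y, q0}) :=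
      cnt_mono (fun k hk h => hq0 k hk h)
    have hza : cnt W (fun k => ¬ (c ∈ X k ∨ d ∈ X k) ∧ b ∉ X k) ≤ cnt W (fun k => X k = {a, y, p0}) :=
      cnt_mono (fun k hk h => hp0 k hk h)
    obtain ⟨kb, hkb, hkbn, hkba⟩ : ∃ k ∈ W, ¬ (c ∈ X k ∨ d ∈ X k) ∧ a ∉ X k := by
      apply cnt_pos
      omega
    obtain ⟨ka, hka, hkan, hkab⟩ : ∃ k ∈ W, ¬ (c ∈ X k ∨ d ∈ X k) ∧ b ∉ X k := by
      apply cnt_pos
      omega
    have hXkb := hq0 kb hkb ⟨hkbn, hkba⟩
    have hXka := hp0 ka hka ⟨hkan, hkab⟩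
    have hq0k : q0 ∈ X kb := by rw [hXkb]; simp
    have hp0k : p0 ∈ X ka := by rw [hXka]; simp
    have hq0a : q0 ≠ a := by rintro rfl; exact hkba hq0k
    have hp0b : p0 ≠ b := by rintro rfl; exact hkab hp0k
    have hq0c : q0 ≠ c := by rintro rfl; exact hkbn (Or.inl hq0k)
    have hq0d : q0 ≠ d := by rintro rfl; exact hkbn (Or.inr hq0k)
    have hp0c : p0 ≠ c := by rintro rfl; exact hkan (Or.inl hp0k)
    have hp0d : p0 ≠ d := by rintro rfl; exact hkan (Or.inr hp0k)
    have hq0b : q0 ≠ b := by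
      intro h
      have h1 := h3 kb hkb
      rw [hXkb, h] at h1
      have h2 : ({b, y, b} : Finset V).card ≤ 2 := by
        have : ({b, y, b} : Finset V) = {b, y} := by
          ext t; simp only [Finset.mem_insert, Finset.mem_singleton]; tauto
        rw [this]; exact Finset.card_le_two
      omega
    have hp0a : p0 ≠ a := by
      intro h
      have h1 := h3 ka hka
      rw [hXka, h] at h1
      have h2 : ({a, y, a} : Finset V).card ≤ 2 := by
        have : ({a, y, a} : Finset V) = {a, y} := by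
          ext t; simp only [Finset.mem_insert, Finset.mem_singleton]; tauto
        rw [this]; exact Finset.card_le_two
      omega
    -- the triples of the rest
    have hRa' : ∀ k ∈ W, y ∉ X k ∧ a ∈ X k ∧ b ∉ X k → q0 ∈ X k := by
      rintro k hk ⟨h1, h2, h4⟩
      obtain ⟨p, hp1, hp2⟩ := hint k hk kb hkb
      rw [hXkb] at hp2
      simp only [Finset.mem_insert, Finset.mem_singleton] at hp2
      rcases hp2 with rfl | rfl | rfl
      · exact absurd hp1 h4
      · exact absurd hp1 h1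
      · exact hp1
    have hRb' : ∀ k ∈ W, y ∉ X k ∧ b ∈ X k ∧ a ∉ X k → p0 ∈ X k := by
      rintro k hk ⟨h1, h2, h4⟩
      obtain ⟨p, hp1, hp2⟩ := hint k hk ka hka
      rw [hXka] at hp2
      simp only [Finset.mem_insert, Finset.mem_singleton] at hp2
      rcases hp2 with rfl | rfl | rfl
      · exact absurd hp1 h4
      · exact absurd hp1 h1
      · exact hp1
    by_cases hpq : p0 = q0
    · subst hpq
      have lp := hload p0
      have h5 : cnt W (fun k => y ∉ X k ∧ a ∈ X k ∧ b ∉ X k) +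
          cnt W (fun k => y ∉ X k ∧ b ∈ X k ∧ a ∉ X k) ≤ cnt W (fun k => p0 ∈ X k) :=
        cnt_add_le hRa' hRb' (fun k _ h h' => h.2.2 h'.2.1)
      omega
    · have t1 := htype {a, q0, c}
      have t2 := htype {a, q0, d}
      have t3 := htype {b, p0, c}
      have t4 := htype {b, p0, d}
      have h5 : cnt W (fun k => y ∉ X k ∧ a ∈ X k ∧ b ∉ X k) ≤
          cnt W (fun k => X k = {a, q0, c}) + cnt W (fun k => X k = {a, q0, d}) := by
        refine le_trans ?_ (cnt_or_le W _ _)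
        apply cnt_mono
        intro k hk h
        have h6 := hRa' k hk h
        rcases (hRab k hk h.1).2 with h7 | h7
        · exact Or.inl (eq_triple (h3 k hk) h.2.1 h6 h7 (Ne.symm hq0a) (Ne.symm hca) hq0c)
        · exact Or.inr (eq_triple (h3 k hk) h.2.1 h6 h7 (Ne.symm hq0a) (Ne.symm hda) hq0d)
      have h6 : cnt W (fun k => y ∉ X k ∧ b ∈ X k ∧ a ∉ X k) ≤
          cnt W (fun k => X k = {b, p0, c}) + cnt W (fun k => X k = {b, p0, d}) := by
        refine le_trans ?_ (cnt_or_le W _ _)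
        apply cnt_mono
        intro k hk h
        have h6 := hRb' k hk h
        rcases (hRab k hk h.1).2 with h7 | h7
        · exact Or.inl (eq_triple (h3 k hk) h.2.1 h6 h7 (Ne.symm hp0b) (Ne.symm hcb) hp0c)
        · exact Or.inr (eq_triple (h3 k hk) h.2.1 h6 h7 (Ne.symm hp0b) (Ne.symm hdb) hp0d)
      obtain ⟨k1, hk1, hk1X⟩ : ∃ k ∈ W, X k = {a, q0, c} := by
        apply cnt_pos
        omega
      obtain ⟨k2, hk2, hk2X⟩ : ∃ k ∈ W, X k = {b, p0, d} := by
        apply cnt_pos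
        omega
      obtain ⟨p, hp1, hp2⟩ := hint k1 hk1 k2 hk2
      rw [hk1X] at hp1
      rw [hk2X] at hp2
      simp only [Finset.mem_insert, Finset.mem_singleton] at hp1 hp2
      rcases hp1 with rfl | rfl | rfl
      · rcases hp2 with h | h | h
        · exact hab h
        · exact hp0a h.symm
        · exact hda h.symm
      · rcases hp2 with h | h | h
        · exact hq0b h
        · exact hpq h.symm
        · exact hq0d h
      · rcases hp2 with h | h | h
        · exact hcb h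
        · exact hp0c h.symm
        · exact hcd h

end Pool.Agent.Helper114.D2
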