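import Mathlib
import Pool.Agent.Helper114_D2.Lin
import Pool.Agent.Helper114_D2.Fano

/-!
# Graphs of diameter two with `7 m + 2` vertices and maximum degree `3 m` have more than `3.00025 n` edges
-/

set_option autoImplicit false

open scoped Classical

namespace Pool.Agent.Helper114.D2

variable {V : Type} [Fintype V]

/-- every vertex is reached from `v` in two steps -/
theorem cover (G : SimpleGraph V)
    (hdiam : ∀ u v, u ≠ v → ¬ G.Adj u v → ∃ w, G.Adj u w ∧ G.Adj v w) (v : V) :
    Fintype.card V ≤ 1 + (G.neighborFinset v).card +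
      ∑ u ∈ G.neighborFinset v, (G.neighborFinset u).card := by
  have hsub : (Finset.univ : Finset V) ⊆ ({v} ∪ G.neighborFinset v) ∪
      (G.neighborFinset v).biUnion (fun u => G.neighborFinset u) := by
    intro x _
    rw [Finset.mem_union, Finset.mem_union, Finset.mem_singleton, Finset.mem_biUnion]
    by_cases h1 : x = v
    · exact Or.inl (Or.inl h1)
    by_cases h2 : G.Adj v x
    · exact Or.inl (Or.inr ((G.mem_neighborFinset v x).mpr h2))
    obtain ⟨w, hw1, hw2⟩ := hdiam v x (Ne.symm h1) h2
    exact Or.inr ⟨w, (G.mem_neighborFinset v w).mpr hw1, (G.mem_neighborFinset w x).mpr hw2.symm⟩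
  have h1 := Finset.card_le_card hsub
  have h2 := Finset.card_union_le ({v} ∪ G.neighborFinset v)
    ((G.neighborFinset v).biUnion (fun u => G.neighborFinset u))
  have h3 := Finset.card_union_le {v} (G.neighborFinset v)
  have h4 : ((G.neighborFinset v).biUnion (fun u => G.neighborFinset u)).card ≤
      ∑ u ∈ G.neighborFinset v, (G.neighborFinset u).card := Finset.card_biUnion_le
  rw [Finset.card_univ] at h1
  rw [Finset.card_singleton] at h3
  omega

/-- double counting of the edges between two sets of vertices -/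
theorem dcount_adj (G : SimpleGraph V) (A B : Finset V) :
    ∑ a ∈ A, (G.neighborFinset a ∩ B).card = ∑ b ∈ B, (G.neighborFinset b ∩ A).card := by
  have h := dcount A B (fun a b => G.Adj a b)
  have h1 : ∀ a, (B.filter (fun b => G.Adj a b)) = G.neighborFinset a ∩ B := by
    intro a
    ext x
    rw [Finset.mem_filter, Finset.mem_inter, G.mem_neighborFinset]
    tauto
  have h2 : ∀ b, (A.filter (fun a => G.Adj a b)) = G.neighborFinset b ∩ A := by
    intro b
    ext x
    rw [Finset.mem_filter, Finset.mem_inter, G.mem_neighborFinset, G.adj_comm]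
    tauto
  simpa only [h1, h2] using h

theorem lower (G : SimpleGraph V) (m : ℕ) (hm : 1000000 ≤ m) (hV : Fintype.card V = 7 * m + 2)
    (hdeg : ∀ v, (G.neighborFinset v).card ≤ 3 * m)
    (hdiam : ∀ u v, u ≠ v → ¬ G.Adj u v → ∃ w, G.Adj u w ∧ G.Adj v w) :
    12001 * (7 * m + 2) < 4000 * G.edgeFinset.card := by
  by_contra hle
  push Not at hle
  set E := G.edgeFinset.card with hE
  have hsum : ∑ v, (G.neighborFinset v).card = 2 * E := by
    have := G.sum_degrees_eq_twice_card_edges
    simpa only [SimpleGraph.card_neighborFinset_eq_degree] using this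
  -- big vertices
  set B : Finset V := Finset.univ.filter (fun v => m ≤ 4 * (G.neighborFinset v).card) with hB
  have hBm : ∀ v, v ∈ B ↔ m ≤ 4 * (G.neighborFinset v).card := by
    intro v; rw [hB, Finset.mem_filter]; simp
  have hBcard : B.card * m ≤ 8 * E := by
    calc B.card * m = ∑ v ∈ B, m := by rw [Finset.sum_const, smul_eq_mul]
      _ ≤ ∑ v ∈ B, 4 * (G.neighborFinset v).card :=
        Finset.sum_le_sum (fun v hv => (hBm v).mp hv)
      _ ≤ ∑ v, 4 * (G.neighborFinset v).card :=
        Finset.sum_le_sum_of_subset (Finset.subset_univ B)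
      _ = 8 * E := by rw [← Finset.mul_sum, hsum]; ring
  have hB168 : B.card ≤ 168 := by
    by_contra hc
    push Not at hc
    have : 169 * m ≤ B.card * m := Nat.mul_le_mul_right m hc
    omega
  -- small vertices
  have hclaim : ∀ v, v ∉ B → 7 ≤ 2 * (G.neighborFinset v ∩ B).card + (G.neighborFinset v \ B).card ∨
      ((G.neighborFinset v ∩ B).card = 3 ∧ (G.neighborFinset v \ B).card = 0) := by
    intro v _
    have h1 := cover G hdiam v
    rw [← Finset.sum_inter_add_sum_sdiff (G.neighborFinset v) B, hV] at h1
    have h2 : ∑ u ∈ G.neighborFinset v ∩ B, (G.neighborFinset u).card ≤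
        (G.neighborFinset v ∩ B).card * (3 * m) := by
      have := Finset.sum_le_card_nsmul (G.neighborFinset v ∩ B)
        (fun u => (G.neighborFinset u).card) (3 * m) (fun u _ => hdeg u)
      simpa [smul_eq_mul] using this
    have h3 : 4 * ∑ u ∈ G.neighborFinset v \ B, (G.neighborFinset u).card ≤
        (G.neighborFinset v \ B).card * m := by
      rw [Finset.mul_sum]
      have := Finset.sum_le_card_nsmul (G.neighborFinset v \ B)
        (fun u => 4 * (G.neighborFinset u).card) m (fun u hu => by
          have h4 : u ∉ B := (Finset.mem_sdiff.mp hu).2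
          rw [hBm] at h4
          show 4 * (G.neighborFinset u).card ≤ m
          omega)
      simpa [smul_eq_mul] using this
    have h4 := Finset.card_inter_add_card_sdiff (G.neighborFinset v) B
    by_contra hcon
    push Not at hcon
    obtain ⟨hc1, hc2⟩ := hcon
    set b := (G.neighborFinset v ∩ B).card
    set s := (G.neighborFinset v \ B).card
    have hb : b ≤ 2 := by
      by_contra hb
      have : b = 3 := by omega
      have := hc2 this
      omega
    have hs : s ≤ 6 := by omega
    interval_cases b <;> interval_cases s <;> omega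
  have hBc : (Finset.univ \ B).card + B.card = 7 * m + 2 := by
    rw [Finset.card_sdiff_add_card_eq_card (Finset.subset_univ B), Finset.card_univ, hV]
  have htot : ∑ v ∈ Finset.univ \ B,
      (2 * (G.neighborFinset v ∩ B).card + (G.neighborFinset v \ B).card) ≤ 2 * E := by
    have h1 : ∑ v, (G.neighborFinset v).card = ∑ v ∈ Finset.univ \ B, (G.neighborFinset v).card +
        ∑ v ∈ B, (G.neighborFinset v).card :=
      (Finset.sum_sdiff (Finset.subset_univ B)).symm
    have h2 : ∑ v ∈ B, (G.neighborFinset v ∩ (Finset.univ \ B)).card ≤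
        ∑ v ∈ B, (G.neighborFinset v).card :=
      Finset.sum_le_sum (fun v _ => Finset.card_le_card Finset.inter_subset_left)
    have h3 := dcount_adj G (Finset.univ \ B) B
    have h4 : ∑ v ∈ Finset.univ \ B, (G.neighborFinset v).card =
        ∑ v ∈ Finset.univ \ B, (G.neighborFinset v ∩ B).card +
        ∑ v ∈ Finset.univ \ B, (G.neighborFinset v \ B).card := by
      rw [← Finset.sum_add_distrib]
      exact Finset.sum_congr rfl (fun v _ => (Finset.card_inter_add_card_sdiff _ B).symm)
    rw [Finset.sum_add_distrib, ← Finset.mul_sum]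
    omega
  -- normal vertices
  set W : Finset V := (Finset.univ \ B).filter (fun v =>
    (G.neighborFinset v ∩ B).card = 3 ∧ (G.neighborFinset v \ B).card = 0) with hWdef
  have hWlow : 7 * (Finset.univ \ B).card ≤ 2 * E + W.card := by
    have h1 : ∀ v ∈ Finset.univ \ B, 7 ≤ (2 * (G.neighborFinset v ∩ B).card +
        (G.neighborFinset v \ B).card) + (if (G.neighborFinset v ∩ B).card = 3 ∧
          (G.neighborFinset v \ B).card = 0 then 1 else 0) := by
      intro v hv
      have hvB : v ∉ B := (Finset.mem_sdiff.mp hv).2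
      rcases hclaim v hvB with h2 | h2
      · omega
      · rw [if_pos h2]; omega
    have h2 := Finset.sum_le_sum h1
    rw [Finset.sum_const, smul_eq_mul, Finset.sum_add_distrib, Finset.sum_boole] at h2
    have h3 : ((Nat.cast W.card : ℕ)) = W.card := rfl
    rw [hWdef] at *
    simp only [Nat.cast_id] at h2
    omega
  have hW699 : 699 * m ≤ 100 * W.card := by omega
  have hWB : ∀ i ∈ W, i ∉ B := fun i hi =>
    (Finset.mem_sdiff.mp (Finset.mem_filter.mp hi).1).2
  have hWN : ∀ i ∈ W, G.neighborFinset i ⊆ B := by
    intro i hi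
    have := (Finset.mem_filter.mp hi).2.2
    rw [Finset.card_eq_zero, Finset.sdiff_eq_empty_iff_subset] at this
    exact this
  have hW3 : ∀ i ∈ W, (G.neighborFinset i).card = 3 := by
    intro i hi
    have h1 := (Finset.mem_filter.mp hi).2
    have h2 := Finset.card_inter_add_card_sdiff (G.neighborFinset i) B
    omega
  have hint : ∀ i ∈ W, ∀ j ∈ W, ∃ p, p ∈ G.neighborFinset i ∧ p ∈ G.neighborFinset j := by
    intro i hi j hj
    by_cases hij : i = j
    · subst hij
      obtain ⟨p, hp⟩ := Finset.card_pos.mp (by rw [hW3 i hi]; norm_num :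
        0 < (G.neighborFinset i).card)
      exact ⟨p, hp, hp⟩
    · have hna : ¬ G.Adj i j := by
        intro h
        exact hWB j hj (hWN i hi ((G.mem_neighborFinset i j).mpr h))
      obtain ⟨w, hw1, hw2⟩ := hdiam i j hij hna
      exact ⟨w, (G.mem_neighborFinset i w).mpr hw1, (G.mem_neighborFinset j w).mpr hw2⟩
  have hload : ∀ p, cnt W (fun i => p ∈ G.neighborFinset i) ≤ 3 * m := by
    intro p
    rw [cnt_eq]
    refine le_trans (Finset.card_le_card ?_) (hdeg p)
    intro i hi
    have := (Finset.mem_filter.mp hi).2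
    rw [G.mem_neighborFinset] at this ⊢
    exact this.symm
  have htype : ∀ S, 200 * cnt W (fun i => G.neighborFinset i = S) ≤ 201 * m := by
    intro S
    by_cases h0 : cnt W (fun i => G.neighborFinset i = S) = 0
    · rw [h0]; omega
    obtain ⟨i0, hi0, hi0S⟩ := cnt_pos (Nat.pos_of_ne_zero h0)
    have hS3 : S.card = 3 := by rw [← hi0S]; exact hW3 i0 hi0
    have h1 := dcount S W (fun p i => p ∈ G.neighborFinset i)
    have h2 : ∑ p ∈ S, (W.filter (fun i => p ∈ G.neighborFinset i)).card ≤ 9 * m := by
      have := Finset.sum_le_card_nsmul S (fun p => (W.filter (fun i => p ∈ G.neighborFinset i)).card)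
        (3 * m) (fun p _ => by
          have h3 := hload p
          rw [cnt_eq] at h3
          exact h3)
      rw [hS3, smul_eq_mul] at this
      omega
    have h3 : ∀ i ∈ W, 1 + (if G.neighborFinset i = S then 2 else 0) ≤
        (S.filter (fun p => p ∈ G.neighborFinset i)).card := by
      intro i hi
      split_ifs with h4
      · rw [h4]
        have : S.filter (fun p => p ∈ S) = S := Finset.filter_true_of_mem (fun x hx => hx)
        rw [this, hS3]
      · obtain ⟨p, hp1, hp2⟩ := hint i hi i0 hi0
        rw [hi0S] at hp2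
        exact Finset.card_pos.mpr ⟨p, Finset.mem_filter.mpr ⟨hp2, hp1⟩⟩
    have h4 := Finset.sum_le_sum h3
    rw [← h1, Finset.sum_add_distrib, Finset.sum_const, smul_eq_mul, mul_one,
      ← Finset.sum_filter, Finset.sum_const, smul_eq_mul] at h4
    rw [← cnt_eq W (fun i => G.neighborFinset i = S)] at h4
    omega
  -- the plane
  set F : Finset (Finset V) := W.image (fun i => G.neighborFinset i) with hF
  have hFm : ∀ S, S ∈ F ↔ ∃ i ∈ W, G.neighborFinset i = S := by
    intro S; rw [hF, Finset.mem_image]
  have hP : Plane F := by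
    refine ⟨?_, ?_, ?_, ?_⟩
    · intro S hS
      obtain ⟨i, hi, rfl⟩ := (hFm S).mp hS
      exact hW3 i hi
    · intro S hS T hT hne
      obtain ⟨i, hi, rfl⟩ := (hFm S).mp hS
      obtain ⟨j, hj, rfl⟩ := (hFm T).mp hT
      apply le_antisymm
      · by_contra hc
        push Not at hc
        obtain ⟨a, ha, b, hb, hab⟩ := Finset.one_lt_card.mp hc
        rw [Finset.mem_inter] at ha hb
        exact linear (by omega) hW3 hint hload htype hW699 hi hj hne hab ha.1 hb.1 ha.2 hb.2
      · obtain ⟨p, hp1, hp2⟩ := hint i hi j hj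
        exact Finset.card_pos.mpr ⟨p, Finset.mem_inter.mpr ⟨hp1, hp2⟩⟩
    · have h1 : W.card = ∑ S ∈ F, (W.filter (fun i => G.neighborFinset i = S)).card :=
        Finset.card_eq_sum_card_image _ W
      have h2 : 200 * ∑ S ∈ F, (W.filter (fun i => G.neighborFinset i = S)).card ≤
          F.card * (201 * m) := by
        rw [Finset.mul_sum]
        have := Finset.sum_le_card_nsmul F
          (fun S => 200 * (W.filter (fun i => G.neighborFinset i = S)).card) (201 * m)
          (fun S _ => by
            have h3 := htype S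
            rw [cnt_eq] at h3
            exact h3)
        simpa [smul_eq_mul] using this
      by_contra hc
      push Not at hc
      have h4 : F.card * (201 * m) ≤ 6 * (201 * m) := Nat.mul_le_mul_right _ (by omega)
      omega
    · intro p
      by_contra hc
      push Not at hc
      have h1 : W.card ≤ cnt W (fun i => p ∈ G.neighborFinset i) := by
        rw [cnt_eq]
        apply Finset.card_le_card
        intro i hi
        rw [Finset.mem_filter]
        exact ⟨hi, hc _ ((hFm _).mpr ⟨i, hi, rfl⟩)⟩
      have h2 := hload p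
      omega
  -- the points are big vertices
  have hptsB : ∀ p ∈ Plane.pts F, p ∈ B := by
    intro p hp
    obtain ⟨S, hS, hpS⟩ := Plane.mem_pts.mp hp
    obtain ⟨i, hi, rfl⟩ := (hFm S).mp hS
    exact hWN i hi hpS
  have hhub := hP.hub G (by
    intro p hp S hS hpS
    obtain ⟨i, hi, rfl⟩ := (hFm S).mp hS
    have hpi : p ≠ i := by
      rintro rfl
      exact hWB _ hi (hptsB _ hp)
    have hna : ¬ G.Adj p i := by
      intro h
      exact hpS ((G.mem_neighborFinset i p).mpr h.symm)
    obtain ⟨w, hw1, hw2⟩ := hdiam p i hpi hna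
    exact ⟨w, (G.mem_neighborFinset i w).mpr hw2, hw1⟩)
  have hout : ∀ v ∈ Finset.univ \ Plane.pts F, 3 ≤ (G.neighborFinset v ∩ Plane.pts F).card := by
    intro v hv
    have hvP : v ∉ Plane.pts F := (Finset.mem_sdiff.mp hv).2
    apply hP.block_ge
    intro S hS
    obtain ⟨i, hi, rfl⟩ := (hFm S).mp hS
    have hsub : ∀ x ∈ G.neighborFinset i, x ∈ Plane.pts F := fun x hx =>
      Plane.mem_pts.mpr ⟨_, hS, hx⟩
    by_cases hvi : v = i
    · subst hvi
      obtain ⟨x, hx⟩ := Finset.card_pos.mp (by rw [hW3 v hi]; norm_num :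
        0 < (G.neighborFinset v).card)
      exact ⟨x, Finset.mem_inter.mpr ⟨hx, hsub x hx⟩, hx⟩
    · have hna : ¬ G.Adj v i := by
        intro h
        exact hvP (hsub v ((G.mem_neighborFinset i v).mpr h.symm))
      obtain ⟨w, hw1, hw2⟩ := hdiam v i hvi hna
      have hwi : w ∈ G.neighborFinset i := (G.mem_neighborFinset i w).mpr hw2
      exact ⟨w, Finset.mem_inter.mpr ⟨(G.mem_neighborFinset v w).mpr hw1, hsub w hwi⟩, hwi⟩
  have hPc := hP.card_pts
  have hPc2 : (Finset.univ \ Plane.pts F).card + (Plane.pts F).card = 7 * m + 2 := by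
    rw [Finset.card_sdiff_add_card_eq_card (Finset.subset_univ _), Finset.card_univ, hV]
  have hs1 : ∑ v ∈ Finset.univ \ Plane.pts F, 3 ≤
      ∑ v ∈ Finset.univ \ Plane.pts F, (G.neighborFinset v ∩ Plane.pts F).card :=
    Finset.sum_le_sum hout
  rw [Finset.sum_const, smul_eq_mul, ← dcount_adj] at hs1
  have hs2 : ∑ p ∈ Plane.pts F, (G.neighborFinset p).card ≤ (Plane.pts F).card * (3 * m) := by
    have := Finset.sum_le_card_nsmul (Plane.pts F) (fun p => (G.neighborFinset p).card) (3 * m)
      (fun p _ => hdeg p)
    simpa [smul_eq_mul] using this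
  have hs3 : ∑ p ∈ Plane.pts F, (G.neighborFinset p).card =
      ∑ p ∈ Plane.pts F, (G.neighborFinset p ∩ Plane.pts F).card +
      ∑ p ∈ Plane.pts F, (G.neighborFinset p ∩ (Finset.univ \ Plane.pts F)).card := by
    rw [← Finset.sum_add_distrib]
    refine Finset.sum_congr rfl (fun p _ => ?_)
    rw [← Finset.card_inter_add_card_sdiff (G.neighborFinset p) (Plane.pts F)]
    congr 2
    ext x
    simp only [Finset.mem_sdiff, Finset.mem_inter, Finset.mem_univ, true_and]
  rw [hPc] at hs2 hPc2
  omega

end Pool.Agent.Helper114.D2
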